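import Pool.Agent.H61.KW.TB

/-!
# Kuiper board KW, row EPT
-/

set_option autoImplicit false

open Set
open Pool.Agent.H59 Pool.Agent.H64.LB Pool.Agent.H61.KU Pool.Agent.H61.KV Pool.Agent.H61.KW

namespace Pool.Agent.H81.KW.EPT

theorem pf_EPT (h : T_TFT) (h2 : T_VEX) : T_EPT := by
  intro V _ _ _ m hK q t hq ht htq
  obtain ⟨g, hg⟩ := hK.tr q hq
  have hC := hK.cc
  have hqC : q ∈ Cn m := hK.mem q hq
  obtain ⟨-, hns, -⟩ := h V m hK q g t hq hg htq ht.2.1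
  obtain ⟨p, hp, hpf, htp⟩ := h2 V m hK (g + t) t (hC.add _ hg.mem _ ht.1) hns ht
    (right_fc hC hg.mem ht.1)
  refine ⟨p, hp, htp, ?_⟩
  intro r hr hrq
  have hr' : r ∈ Fc (Cn m) (g + t) := tra hC (hC.add _ hg.mem _ ht.1) hpf hr
  exact foot_face hC hqC hg.mem htq hg.foot hrq hr'

end Pool.Agent.H81.KW.EPT
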