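import Pool.Agent.H61.KW.TB
import Pool.Agent.H94.KU.XHO

/-!
# Kuiper board KW, row H2U
-/

set_option autoImplicit false

open Set
open Pool.Agent.H59 Pool.Agent.H64.LB Pool.Agent.H61.KU Pool.Agent.H61.KV Pool.Agent.H61.KW

namespace Pool.Agent.H81.KW.H2U

theorem fwd {A B : Type} [AddCommGroup A] [AddCommGroup B] (f : A → B) (h0 : f 0 = 0)
    (hs : Function.Surjective f) (h : ∀ a b : A, a ≠ 0 → b ≠ 0 → a = b) :
    ∀ a b : B, a ≠ 0 → b ≠ 0 → a = b := by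
  intro a b ha hb
  obtain ⟨x, rfl⟩ := hs a
  obtain ⟨y, rfl⟩ := hs b
  rw [h x y (fun hx => ha (by rw [hx, h0])) (fun hy => hb (by rw [hy, h0]))]

theorem bwd {A B : Type} [AddCommGroup A] [AddCommGroup B] (f : A → B) (h0 : f 0 = 0)
    (hi : Function.Injective f) (h : ∀ a b : B, a ≠ 0 → b ≠ 0 → a = b) :
    ∀ a b : A, a ≠ 0 → b ≠ 0 → a = b := by
  intro a b ha hb
  apply hi
  exact h _ _ (fun hx => ha (hi (by rw [hx, h0]))) (fun hy => hb (hi (by rw [hy, h0])))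

theorem pf_H2U (hm : T_HM) (s2h : T_S2H) (pl1 : T_PL1) (hXHO : T_XHO) : T_H2U := by
  obtain ⟨-, e0, -⟩ := pl1
  obtain ⟨⟨l⟩, -⟩ := s2h (ZMod 2)
  have h0 : ∀ a b : ZMod 2, a ≠ 0 → b ≠ 0 → a = b := by decide
  have h1 : ∀ a b : HH (ZMod 2) 2 S2, a ≠ 0 → b ≠ 0 → a = b :=
    bwd l (map_zero l) l.injective h0
  have h2 : ∀ a b : HH (ZMod 2) 2 (PN 1), a ≠ 0 → b ≠ 0 → a = b :=
    fwd _ (map_zero _) (Pool.Agent.H94.KU.XHO.bij_homeo 2 e0).2 h1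
  have h3 : ∀ a b : HH (ZMod 2) 2 NN, a ≠ 0 → b ≠ 0 → a = b :=
    bwd _ (map_zero _) (Pool.Agent.H94.KU.XHO.bij_equiv hm 2 rhoEquiv).1 h2
  have h4 := (hXHO.2.1 q0).1 2 (by norm_num)
  exact fwd _ (map_zero _) h4.2 h3

end Pool.Agent.H81.KW.H2U
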